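import Pool.Agent.N549.HG.Stm3
import Pool.Agent.N342.HG.Loc

/-!
# HG/LOC2: pairs of near points in a small subset of a ball of the torus, three point version
-/

set_option autoImplicit false
set_option linter.all false

namespace Pool.Agent.N756.HG

open MeasureTheory Set Pool.Agent.N549.HG Pool.Agent.N342.HG
open scoped ENNReal NNReal

/-! ### Representatives -/

theorem rep {n : ℕ} {r : ℝ} (hr : 0 < r) (hr4 : r ≤ 1 / 4) (u v : Torus n)
    (huv : sqd u v < r ^ 2) : ∃ a : Fin n → ℝ, (∀ i, ((a i : ℝ) : UnitAddCircle) = u i - v i) ∧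
      (∀ i, |a i| < 1 / 4) ∧ sqd u v = ∑ i, a i ^ 2 := by
  choose a ha1 ha2 using fun i => exists_rep (u i - v i)
  refine ⟨a, ha1, fun i => ?_, ?_⟩
  · rw [ha2 i]
    exact (coord_lt u v hr huv i).trans_le hr4
  · unfold sqd
    exact Finset.sum_congr rfl fun i _ => by rw [← ha2, sq_abs]

theorem sqd_rep {n : ℕ} {u y v : Torus n} {a b : Fin n → ℝ}
    (ha : ∀ i, ((a i : ℝ) : UnitAddCircle) = u i - v i)
    (hb : ∀ i, ((b i : ℝ) : UnitAddCircle) = y i - v i) (ha4 : ∀ i, |a i| < 1 / 4)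
    (hb4 : ∀ i, |b i| < 1 / 4) : sqd y u = ∑ i, (b i - a i) ^ 2 := by
  unfold sqd
  refine Finset.sum_congr rfl fun i _ => ?_
  have h1 : y i - u i = ((b i - a i : ℝ) : UnitAddCircle) := by
    rw [AddCircle.coe_sub, hb, ha]
    abel
  have h2 : ‖y i - u i‖ = |b i - a i| := by
    rw [h1]
    apply norm_coe_eq
    have h2 := abs_sub (b i) (a i)
    have h3 := ha4 i
    have h4 := hb4 i
    linarith
  rw [h2, sq_abs]

theorem sqd_cen {n : ℕ} {y v : Torus n} {b : Fin n → ℝ}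
    (hb : ∀ i, ((b i : ℝ) : UnitAddCircle) = y i - v i) (c : Fin n → ℝ) :
    sqd y (fun i => v i + ((c i : ℝ) : UnitAddCircle)) ≤ ∑ i, (b i - c i) ^ 2 := by
  unfold sqd
  refine Finset.sum_le_sum fun i _ => ?_
  have h1 : y i - (v i + ((c i : ℝ) : UnitAddCircle)) = ((b i - c i : ℝ) : UnitAddCircle) := by
    rw [AddCircle.coe_sub, hb]
    abel
  rw [h1, ← sq_abs (b i - c i)]
  exact pow_le_pow_left₀ (norm_nonneg _) (norm_coe_le _) 2

/-- the points with a large inner product with a given point -/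
theorem geo1 {n : ℕ} {r : ℝ} (hr : 0 < r) (hr4 : r ≤ 1 / 4) (u v : Torus n)
    (huv : sqd u v < r ^ 2) : ∃ w : Torus n, ∀ y : Torus n, sqd y v < r ^ 2 →
      1.06 * r ^ 2 ≤ sqd u v + sqd y v - sqd u y → sqd y w < 0.72 * r ^ 2 := by
  obtain ⟨a, ha, ha4, hau⟩ := rep hr hr4 u v huv
  refine ⟨fun i => v i + ((0.53 * a i : ℝ) : UnitAddCircle), fun y hyv hle => ?_⟩
  obtain ⟨b, hb, hb4, hbu⟩ := rep hr hr4 y v hyv
  have e1 := sqd_cen hb fun i => 0.53 * a i
  have e2 := sqd_rep hb ha hb4 ha4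
  have e3 : ∑ i, (b i - 0.53 * a i) ^ 2 = (1 - 0.53) * (∑ i, b i ^ 2) -
      (0.53 - 0.53 ^ 2) * (∑ i, a i ^ 2) + 0.53 * ∑ i, (a i - b i) ^ 2 := by
    rw [Finset.mul_sum, Finset.mul_sum, Finset.mul_sum, ← Finset.sum_sub_distrib,
      ← Finset.sum_add_distrib]
    exact Finset.sum_congr rfl fun i _ => by ring
  rw [e3, ← hau, ← hbu, ← e2] at e1
  norm_num at e1 hle ⊢
  nlinarith [sq_nonneg r]

/-- the points below two points whose inner product is not too large -/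
theorem geo2 {n : ℕ} {r : ℝ} (hr : 0 < r) (hr4 : r ≤ 1 / 4) (u u' v : Torus n)
    (huv : sqd u v < r ^ 2) (huv' : sqd u' v < r ^ 2)
    (h1 : sqd u v + sqd u' v - sqd u u' < 1.06 * r ^ 2) (h2 : 0.72 * r ^ 2 ≤ sqd u v)
    (h3 : 0.72 * r ^ 2 ≤ sqd u' v) : ∃ w : Torus n, ∀ y : Torus n, sqd y v < r ^ 2 →
      sqd y u < r ^ 2 → sqd y u' < r ^ 2 → sqd y v ≤ sqd u v → sqd y v ≤ sqd u' v →
      sqd y w < 0.7045 * r ^ 2 := by
  obtain ⟨a, ha, ha4, hau⟩ := rep hr hr4 u v huv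
  obtain ⟨c, hc, hc4, hcu⟩ := rep hr hr4 u' v huv'
  refine ⟨fun i => v i + (((a i + c i) / 3 : ℝ) : UnitAddCircle), fun y hyv h4 h5 h6 h7 => ?_⟩
  obtain ⟨b, hb, hb4, hbu⟩ := rep hr hr4 y v hyv
  have e1 := sqd_cen hb fun i => (a i + c i) / 3
  have e2 := sqd_rep ha hb ha4 hb4
  have e3 := sqd_rep hc hb hc4 hb4
  have e4 := sqd_rep hc ha hc4 ha4
  have e5 : ∑ i, (b i - (a i + c i) / 3) ^ 2 = (1 / 3) * (∑ i, b i ^ 2) -
      (1 / 9) * (∑ i, a i ^ 2) - (1 / 9) * (∑ i, c i ^ 2) + (1 / 3) * ∑ i, (b i - a i) ^ 2 +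
      (1 / 3) * ∑ i, (b i - c i) ^ 2 - (1 / 9) * ∑ i, (a i - c i) ^ 2 := by
    rw [Finset.mul_sum, Finset.mul_sum, Finset.mul_sum, Finset.mul_sum, Finset.mul_sum,
      Finset.mul_sum, ← Finset.sum_sub_distrib, ← Finset.sum_sub_distrib,
      ← Finset.sum_add_distrib, ← Finset.sum_add_distrib, ← Finset.sum_sub_distrib]
    exact Finset.sum_congr rfl fun i _ => by ring
  rw [e5, ← hau, ← hbu, ← hcu, ← e2, ← e3, ← e4] at e1
  norm_num at e1 h1 h2 h3 ⊢
  linarith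

/-! ### Measure theory -/

/-- Cauchy-Schwarz for the number of common neighbours -/
theorem cs {Ω : Type} [MeasurableSpace Ω] (ν : Measure Ω) [IsFiniteMeasure ν] {E : Set (Ω × Ω)}
    (hE : MeasurableSet E) : (∫⁻ u, ν {y | (u, y) ∈ E} ∂ν) ^ 2 ≤
      ν univ * ∫⁻ p : Ω × Ω, ν {y | (p.1, y) ∈ E ∧ (p.2, y) ∈ E} ∂(ν.prod ν) := by
  have e1 : ∫⁻ u, ν {y | (u, y) ∈ E} ∂ν = (ν.prod ν) E := (Measure.prod_apply hE).symm
  have e2 : (ν.prod ν) E = ∫⁻ y, ν {u | (u, y) ∈ E} ∂ν := Measure.prod_apply_symm hE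
  set d : Ω → ℝ≥0∞ := fun y => ν {u | (u, y) ∈ E} with hd
  have hdm : Measurable d := measurable_measure_prodMk_right hE
  set G : Set ((Ω × Ω) × Ω) := {q | (q.1.1, q.2) ∈ E ∧ (q.1.2, q.2) ∈ E} with hG
  have hGm : MeasurableSet G := by
    have f1 : Measurable fun q : (Ω × Ω) × Ω => (q.1.1, q.2) := by fun_prop
    have f2 : Measurable fun q : (Ω × Ω) × Ω => (q.1.2, q.2) := by fun_prop
    exact (f1 hE).inter (f2 hE)
  have e3 : ∫⁻ y, d y ^ (2 : ℝ) ∂ν = ((ν.prod ν).prod ν) G := by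
    rw [Measure.prod_apply_symm hGm]
    refine lintegral_congr fun y => ?_
    have h : (fun p : Ω × Ω => (p, y)) ⁻¹' G = {u | (u, y) ∈ E} ×ˢ {u | (u, y) ∈ E} := rfl
    rw [h, Measure.prod_prod, ENNReal.rpow_two, sq]
  have e4 : ((ν.prod ν).prod ν) G =
      ∫⁻ p : Ω × Ω, ν {y | (p.1, y) ∈ E ∧ (p.2, y) ∈ E} ∂(ν.prod ν) := Measure.prod_apply hGm
  have hol := ENNReal.lintegral_mul_le_Lp_mul_Lq ν Real.HolderConjugate.two_two
    hdm.aemeasurable (aemeasurable_const (b := (1 : ℝ≥0∞)))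
  have e5 : ∫⁻ y, (d * ((fun _ => 1) : Ω → ℝ≥0∞)) y ∂ν = ∫⁻ y, d y ∂ν :=
    lintegral_congr fun y => by simp
  rw [e5] at hol
  simp only [ENNReal.one_rpow, lintegral_const, one_mul] at hol
  rw [e3] at hol
  rw [e1, e2, ← e4]
  refine (pow_le_pow_left₀ zero_le hol 2).trans (le_of_eq ?_)
  rw [mul_pow, ← ENNReal.rpow_two, ← ENNReal.rpow_two, ← ENNReal.rpow_mul, ← ENNReal.rpow_mul]
  norm_num
  rw [mul_comm]

/-- the pairs outside of which the common neighbours lie in a small ball -/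
def Bad {n : ℕ} (r : ℝ) (v : Torus n) : Set (Torus n × Torus n) :=
  {p | 1.06 * r ^ 2 ≤ sqd p.1 v + sqd p.2 v - sqd p.1 p.2} ∪
    ({p | sqd p.1 v < 0.72 * r ^ 2} ∪ {p | sqd p.2 v < 0.72 * r ^ 2})

theorem sqrt_ball {n : ℕ} {r c : ℝ} (hc : 0 ≤ c) : (Real.sqrt c * r) ^ 2 = c * r ^ 2 := by
  rw [mul_pow, Real.sq_sqrt hc]

/-- a small ball -/
theorem small {n : ℕ} (hn : 1 ≤ n) (hT : S_TORUS) {r c : ℝ} (hr : 0 < r) (hr4 : r ≤ 1 / 4)
    (hc0 : 0 < c) (hc1 : c ≤ 1) (w : Torus n) : vol n {y | sqd y w < c * r ^ 2} =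
      ENNReal.ofReal (Real.sqrt c ^ n) * ENNReal.ofReal (ballVol n r) := by
  have h0 : 0 < Real.sqrt c := Real.sqrt_pos.2 hc0
  have h1 : Real.sqrt c ≤ 1 := Real.sqrt_le_one.2 hc1
  have h2 : Real.sqrt c * r ≤ 1 / 2 := by nlinarith
  have h3 := (hT n hn (Real.sqrt c * r) (by positivity) h2).1 w
  rw [sqrt_ball (n := n) hc0.le, ballVol_scale n h0 r, ENNReal.ofReal_mul (by positivity)] at h3
  exact h3

theorem loc2 (hT : S_TORUS) : S_LOC2 := by
  intro n hn r hr hr4 v T hTm hTv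
  set ν := (vol n).restrict T with hν
  haveI : IsFiniteMeasure ν := by
    rw [hν]
    infer_instance
  set d0 := ENNReal.ofReal (ballVol n r) with hd0
  set x := ENNReal.ofReal (Real.sqrt 0.7045 ^ n) with hx
  set z := ENNReal.ofReal (Real.sqrt 0.72 ^ n) with hz
  set t := ENNReal.ofReal (Real.sqrt 0.75 ^ n) with ht
  set V := vol n T with hV
  have hνu : ν univ = V := by rw [hν, Measure.restrict_apply_univ]
  -- measurability
  have hmv : Measurable fun y : Torus n => sqd y v :=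
    ((cont_sqd n).comp (continuous_id.prodMk continuous_const)).measurable
  have hm1 : Measurable fun p : Torus n × Torus n => sqd p.2 p.1 :=
    ((cont_sqd n).comp continuous_swap).measurable
  have hm2 : Measurable fun p : Torus n × Torus n => sqd p.1 p.2 := (cont_sqd n).measurable
  have hE : MeasurableSet {p : Torus n × Torus n | sqd p.2 p.1 < r ^ 2 ∧ sqd p.2 v ≤ sqd p.1 v} :=
    (measurableSet_lt hm1 measurable_const).inter
      (measurableSet_le (hmv.comp measurable_snd) (hmv.comp measurable_fst))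
  have hP : MeasurableSet {p : Torus n × Torus n | sqd p.2 p.1 < r ^ 2 ∧ sqd p.1 v ≤ sqd p.2 v} :=
    (measurableSet_lt hm1 measurable_const).inter
      (measurableSet_le (hmv.comp measurable_fst) (hmv.comp measurable_snd))
  have hP1 : ∀ u, MeasurableSet {y : Torus n | sqd y u < r ^ 2 ∧ sqd u v ≤ sqd y v} := fun u =>
    measurable_prodMk_left hP
  have hPu : ∀ u : Torus n, Measurable fun y : Torus n => sqd y u := fun u =>
    ((cont_sqd n).comp (continuous_id.prodMk continuous_const)).measurable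
  have hP2 : ∀ u, MeasurableSet {y : Torus n | sqd y u < r ^ 2 ∧ sqd y v ≤ sqd u v} := fun u =>
    (measurableSet_lt (hPu u) measurable_const).inter (measurableSet_le hmv measurable_const)
  -- symmetry, as in the two point version
  have hsymm : ∫⁻ u, ν {y | sqd y u < r ^ 2 ∧ sqd u v ≤ sqd y v} ∂ν =
      ∫⁻ u, ν {y | sqd y u < r ^ 2 ∧ sqd y v ≤ sqd u v} ∂ν := by
    have e1 := Measure.prod_apply (μ := ν) (ν := ν) hP
    have e2 := Measure.prod_apply_symm (μ := ν) (ν := ν) hP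
    have e3 : ∫⁻ u, ν {y | sqd y u < r ^ 2 ∧ sqd u v ≤ sqd y v} ∂ν = (ν.prod ν)
      {p : Torus n × Torus n | sqd p.2 p.1 < r ^ 2 ∧ sqd p.1 v ≤ sqd p.2 v} := e1.symm
    rw [e3, e2]
    refine lintegral_congr fun u => ?_
    congr 1
    ext y
    simp only [mem_preimage, mem_ofPred_eq, sqd_comm u y]
  have hsplit : ∀ u, vol n (T ∩ {y | sqd y u < r ^ 2}) ≤
      ν {y | sqd y u < r ^ 2 ∧ sqd u v ≤ sqd y v} +
        ν {y | sqd y u < r ^ 2 ∧ sqd y v ≤ sqd u v} := by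
    intro u
    rw [hν, Measure.restrict_apply (hP1 u), Measure.restrict_apply (hP2 u)]
    refine (measure_mono ?_).trans (measure_union_le _ _)
    rintro y ⟨h5, h6⟩
    rcases le_total (sqd u v) (sqd y v) with h7 | h7
    · exact Or.inl ⟨⟨h6, h7⟩, h5⟩
    · exact Or.inr ⟨⟨h6, h7⟩, h5⟩
  have hmeas : Measurable fun u => ν {y | sqd y u < r ^ 2 ∧ sqd u v ≤ sqd y v} :=
    measurable_measure_prodMk_left hP
  set I := ∫⁻ u, ν {y | sqd y u < r ^ 2 ∧ sqd y v ≤ sqd u v} ∂ν with hI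
  have hfirst : ∫⁻ u in T, vol n (T ∩ {y | sqd y u < r ^ 2}) ∂(vol n) ≤ 2 * I := by
    calc ∫⁻ u in T, vol n (T ∩ {y | sqd y u < r ^ 2}) ∂(vol n)
        ≤ ∫⁻ u, (ν {y | sqd y u < r ^ 2 ∧ sqd u v ≤ sqd y v} +
          ν {y | sqd y u < r ^ 2 ∧ sqd y v ≤ sqd u v}) ∂ν := lintegral_mono hsplit
      _ = 2 * I := by rw [lintegral_add_left hmeas, hsymm, two_mul]
  -- Cauchy-Schwarz
  have hcs := cs ν hE
  have hcs' : I ^ 2 ≤ V * ∫⁻ p : Torus n × Torus n, ν {y | (sqd y p.1 < r ^ 2 ∧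
      sqd y v ≤ sqd p.1 v) ∧ (sqd y p.2 < r ^ 2 ∧ sqd y v ≤ sqd p.2 v)} ∂(ν.prod ν) := by
    rw [← hνu]
    exact hcs
  -- the bad pairs
  have hBm1 : MeasurableSet {p : Torus n × Torus n |
      1.06 * r ^ 2 ≤ sqd p.1 v + sqd p.2 v - sqd p.1 p.2} :=
    measurableSet_le measurable_const
      (((hmv.comp measurable_fst).add (hmv.comp measurable_snd)).sub hm2)
  have hBm2 : MeasurableSet {p : Torus n × Torus n | sqd p.1 v < 0.72 * r ^ 2} :=
    measurableSet_lt (hmv.comp measurable_fst) measurable_const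
  have hBm3 : MeasurableSet {p : Torus n × Torus n | sqd p.2 v < 0.72 * r ^ 2} :=
    measurableSet_lt (hmv.comp measurable_snd) measurable_const
  have hBm : MeasurableSet (Bad r v) := hBm1.union (hBm2.union hBm3)
  have hsm : ∀ w : Torus n, vol n {y | sqd y w < 0.72 * r ^ 2} = z * d0 := fun w =>
    small hn hT hr hr4 (by norm_num) (by norm_num) w
  have hb1 : (ν.prod ν) {p : Torus n × Torus n |
      1.06 * r ^ 2 ≤ sqd p.1 v + sqd p.2 v - sqd p.1 p.2} ≤ z * d0 * V := by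
    rw [Measure.prod_apply hBm1]
    calc _ ≤ ∫⁻ _u, z * d0 ∂ν := by
          refine lintegral_mono_ae ?_
          rw [hν]
          refine (ae_restrict_iff' hTm).2 (Filter.Eventually.of_forall fun u hu => ?_)
          obtain ⟨w, hw⟩ := geo1 hr hr4 u v (hTv hu)
          rw [Measure.restrict_apply (measurable_prodMk_left hBm1), ← hsm w]
          refine measure_mono ?_
          rintro y ⟨h5, h6⟩
          exact hw y (hTv h6) h5
      _ = z * d0 * V := by rw [lintegral_const, hνu]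
  have hνs : ν {y | sqd y v < 0.72 * r ^ 2} ≤ z * d0 := by
    rw [← hsm v, hν]
    exact Measure.restrict_apply_le _ _
  have hb2 : (ν.prod ν) {p : Torus n × Torus n | sqd p.1 v < 0.72 * r ^ 2} ≤ z * d0 * V := by
    have e : {p : Torus n × Torus n | sqd p.1 v < 0.72 * r ^ 2} =
        {y | sqd y v < 0.72 * r ^ 2} ×ˢ univ := by
      ext p
      simp
    rw [e, Measure.prod_prod, hνu]
    gcongr
  have hb3 : (ν.prod ν) {p : Torus n × Torus n | sqd p.2 v < 0.72 * r ^ 2} ≤ z * d0 * V := by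
    have e : {p : Torus n × Torus n | sqd p.2 v < 0.72 * r ^ 2} =
        univ ×ˢ {y | sqd y v < 0.72 * r ^ 2} := by
      ext p
      simp
    rw [e, Measure.prod_prod, hνu, mul_comm]
    gcongr
  have hbad : (ν.prod ν) (Bad r v) ≤ 3 * (z * d0 * V) := by
    refine (measure_union_le _ _).trans ((add_le_add hb1 ((measure_union_le _ _).trans
      (add_le_add hb2 hb3))).trans (le_of_eq ?_))
    ring
  -- the bound for a pair
  have hpair : ∀ᵐ p ∂(ν.prod ν), ν {y | (sqd y p.1 < r ^ 2 ∧ sqd y v ≤ sqd p.1 v) ∧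
      (sqd y p.2 < r ^ 2 ∧ sqd y v ≤ sqd p.2 v)} ≤
        (Bad r v).indicator (fun _ => t * d0) p + x * d0 := by
    rw [hν, Measure.prod_restrict]
    refine (ae_restrict_iff' (hTm.prod hTm)).2 (Filter.Eventually.of_forall fun p hp => ?_)
    obtain ⟨hp1, hp2⟩ := hp
    have hms : MeasurableSet {y : Torus n | (sqd y p.1 < r ^ 2 ∧ sqd y v ≤ sqd p.1 v) ∧
      (sqd y p.2 < r ^ 2 ∧ sqd y v ≤ sqd p.2 v)} := (hP2 p.1).inter (hP2 p.2)
    rw [Measure.restrict_apply hms]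
    by_cases hB : p ∈ Bad r v
    · rw [indicator_of_mem hB]
      refine le_trans ?_ (le_add_right le_rfl)
      obtain ⟨w, hw⟩ := geo hr hr4 p.1 v (hTv hp1)
      have h75 := small hn hT hr hr4 (c := 0.75) (by norm_num) (by norm_num) w
      rw [ht, hd0, ← h75]
      refine measure_mono ?_
      rintro y ⟨⟨⟨h5, h6⟩, _⟩, h7⟩
      have h8 := hw y (hTv h7) h5 h6
      have h9 : (Real.sqrt 3 / 2 * r) ^ 2 = 0.75 * r ^ 2 := by
        rw [mul_pow, div_pow, Real.sq_sqrt (by norm_num)]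
        norm_num
      rw [h9] at h8
      exact h8
    · rw [indicator_of_notMem hB, zero_add]
      have hB' := hB
      unfold Bad at hB'
      simp only [mem_union, mem_ofPred_eq, not_or, not_le, not_lt] at hB'
      obtain ⟨hq1, hq2, hq3⟩ := hB'
      obtain ⟨w, hw⟩ := geo2 hr hr4 p.1 p.2 v (hTv hp1) (hTv hp2) hq1 hq2 hq3
      have h70 := small hn hT hr hr4 (c := 0.7045) (by norm_num) (by norm_num) w
      rw [hx, hd0, ← h70]
      refine measure_mono ?_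
      rintro y ⟨⟨⟨h5, h6⟩, h7, h8⟩, h9⟩
      exact hw y (hTv h9) h5 h7 h6 h8
  have hint : ∫⁻ p : Torus n × Torus n, ν {y | (sqd y p.1 < r ^ 2 ∧
      sqd y v ≤ sqd p.1 v) ∧ (sqd y p.2 < r ^ 2 ∧ sqd y v ≤ sqd p.2 v)} ∂(ν.prod ν) ≤
        t * d0 * (3 * (z * d0 * V)) + x * d0 * (V * V) := by
    refine (lintegral_mono_ae hpair).trans ?_
    rw [lintegral_add_right _ measurable_const, lintegral_indicator hBm, lintegral_const,
      lintegral_const, Measure.restrict_apply_univ, ← univ_prod_univ, Measure.prod_prod, hνu]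
    gcongr
  have hzt : t * z = ENNReal.ofReal (Real.sqrt 0.54 ^ n) := by
    rw [ht, hz, ← ENNReal.ofReal_mul (by positivity), ← mul_pow, ← Real.sqrt_mul (by norm_num)]
    norm_num
  have h4 : ENNReal.ofReal (4 * ballVol n r) = 4 * d0 := by
    rw [ENNReal.ofReal_mul (by norm_num), ENNReal.ofReal_ofNat]
  have h3 : ENNReal.ofReal (3 * ballVol n r * Real.sqrt 0.54 ^ n) = 3 * d0 * (t * z) := by
    rw [hzt, ENNReal.ofReal_mul' (by positivity), ENNReal.ofReal_mul (by norm_num),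
      ENNReal.ofReal_ofNat]
  rw [h4, h3]
  calc (∫⁻ u in T, vol n (T ∩ {y | sqd y u < r ^ 2}) ∂(vol n)) ^ 2 ≤ (2 * I) ^ 2 :=
        pow_le_pow_left₀ zero_le hfirst 2
    _ = 4 * I ^ 2 := by ring
    _ ≤ 4 * (V * (t * d0 * (3 * (z * d0 * V)) + x * d0 * (V * V))) := by
        gcongr
        exact hcs'.trans (by gcongr)
    _ = 4 * d0 * V ^ 2 * (V * x + 3 * d0 * (t * z)) := by ring

end Pool.Agent.N756.HG
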